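import Pool.Agent.Helper81.XP.StA

/-! From small `P P⁻¹` to an approximate group. -/

open Finset
open scoped Pointwise Combinatorics.Additive

namespace Pool.Agent.Helper94.XP

open Pool.Agent.Helper81.XP

section
variable {G : Type} [Group G] [DecidableEq G]

/-- number of representations -/
def rep (P : Finset G) (x : G) : ℕ := #{z ∈ P⁻¹ ×ˢ P | z.1 * z.2 = x}

theorem rep_le (P : Finset G) (x : G) : rep P x ≤ #P := by
  refine card_le_card_of_injOn (fun z => z.2) ?_ ?_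
  · intro z hz
    rw [mem_coe, mem_filter, mem_product] at hz
    exact hz.1.2
  · intro z hz w hw h
    rw [mem_coe, mem_filter, mem_product] at hz hw
    have h' : z.2 = w.2 := h
    have h1 : z.1 * z.2 = w.1 * z.2 := by rw [hz.2, h', hw.2]
    exact Prod.ext (mul_right_cancel h1) h'

theorem rep_sum (P : Finset G) : ∑ x ∈ P⁻¹ * P, rep P x = #P ^ 2 := by
  have h := card_eq_sum_card_fiberwise (s := P⁻¹ ×ˢ P) (t := P⁻¹ * P) (f := fun z => z.1 * z.2)
    (fun z hz => by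
      rw [mem_coe, mem_product] at hz
      exact mul_mem_mul hz.1 hz.2)
  rw [card_product, card_inv] at h
  rw [sq, h]
  rfl

theorem rep_inv (P : Finset G) (x : G) : rep P x⁻¹ = rep P x := by
  have key : ∀ y : G, rep P y ≤ rep P y⁻¹ := by
    intro y
    refine card_le_card_of_injOn (fun z => (z.2⁻¹, z.1⁻¹)) ?_ ?_
    · intro z hz
      rw [mem_coe, mem_filter, mem_product] at hz ⊢
      obtain ⟨⟨h1, h2⟩, h3⟩ := hz
      refine ⟨⟨inv_mem_inv h2, ?_⟩, ?_⟩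
      · rwa [mem_inv'] at h1
      · show z.2⁻¹ * z.1⁻¹ = y⁻¹
        rw [← mul_inv_rev, h3]
    · intro z _ w _ h
      have h1 := congrArg Prod.fst h
      have h2 := congrArg Prod.snd h
      exact Prod.ext (inv_injective h2) (inv_injective h1)
  refine le_antisymm ?_ (key x)
  have := key x⁻¹
  rwa [inv_inv] at this

theorem energy_le (P : Finset G) : Eₘ[P, P⁻¹] ≤ Eₘ[P⁻¹, P] := by
  unfold mulEnergy
  refine card_le_card_of_injOn (fun z => ((z.2.1, z.1.1⁻¹), (z.2.2⁻¹, z.1.2))) ?_ ?_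
  · intro z hz
    rw [mem_coe, mem_filter, mem_product, mem_product, mem_product] at hz ⊢
    obtain ⟨⟨⟨h1, h2⟩, h3, h4⟩, h5⟩ := hz
    refine ⟨⟨⟨h3, inv_mem_inv h1⟩, ?_, h2⟩, ?_⟩
    · rwa [mem_inv'] at h4
    · show z.2.1 * z.2.2⁻¹ = z.1.1⁻¹ * z.1.2
      rw [mul_inv_eq_iff_eq_mul, mul_assoc, ← h5, inv_mul_cancel_left]
  · intro z _ w _ h
    have h1 : z.2.1 = w.2.1 := congrArg (fun a => a.1.1) h
    have h2 : z.1.1⁻¹ = w.1.1⁻¹ := congrArg (fun a => a.1.2) h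
    have h3 : z.2.2⁻¹ = w.2.2⁻¹ := congrArg (fun a => a.2.1) h
    have h4 : z.1.2 = w.1.2 := congrArg (fun a => a.2.2) h
    exact Prod.ext (Prod.ext (inv_injective h2) h4) (Prod.ext h1 (inv_injective h3))

theorem key_step (P U D : Finset G) (t : ℝ) (ht : ∀ d ∈ D, t ≤ (rep P d : ℝ)) :
    (#(U * D * P⁻¹) : ℝ) * t ≤ (#(U * P⁻¹) : ℝ) * (#(P * P⁻¹) : ℝ) := by
  have h : ∀ x ∈ U * D * P⁻¹, ∃ u d w, u ∈ U ∧ d ∈ D ∧ w ∈ P⁻¹ ∧ u * d * w = x := by
    intro x hx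
    obtain ⟨y, hy, w, hw, rfl⟩ := mem_mul.1 hx
    obtain ⟨u, hu, d, hd, rfl⟩ := mem_mul.1 hy
    exact ⟨u, d, w, hu, hd, hw, rfl⟩
  choose! u d w hu hd hw he using h
  have h1 : (#(U * D * P⁻¹) : ℝ) * t ≤ ∑ x ∈ U * D * P⁻¹, (rep P (d x) : ℝ) := by
    rw [← nsmul_eq_mul]
    exact card_nsmul_le_sum _ _ _ fun x hx => ht _ (hd x hx)
  have h2 : ∑ x ∈ U * D * P⁻¹, rep P (d x) ≤ #(U * P⁻¹) * #(P * P⁻¹) := by
    have h3 : ∑ x ∈ U * D * P⁻¹, rep P (d x) = #((U * D * P⁻¹).sigma fun x =>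
        {z ∈ P⁻¹ ×ˢ P | z.1 * z.2 = d x}) := by
      rw [card_sigma]; rfl
    rw [h3, ← card_product]
    refine card_le_card_of_injOn (fun z => (u z.1 * z.2.1, z.2.2 * w z.1)) ?_ ?_
    · intro z hz
      rw [mem_coe, mem_sigma, mem_filter, mem_product] at hz
      obtain ⟨h4, ⟨h5, h6⟩, h7⟩ := hz
      rw [mem_coe, mem_product]
      exact ⟨mul_mem_mul (hu _ h4) h5, mul_mem_mul h6 (hw _ h4)⟩
    · rintro ⟨x, a, b⟩ hz ⟨x', a', b'⟩ hz' heq
      rw [mem_coe, mem_sigma, mem_filter, mem_product] at hz hz'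
      obtain ⟨h4, ⟨-, -⟩, h7⟩ := hz
      obtain ⟨h4', ⟨-, -⟩, h7'⟩ := hz'
      have e1 : u x * a = u x' * a' := congrArg Prod.fst heq
      have e2 : b * w x = b' * w x' := congrArg Prod.snd heq
      have e3 : a * b = d x := h7
      have e3' : a' * b' = d x' := h7'
      have hx : x = x' := by
        have h8 : (u x * a) * (b * w x) = x := by
          have : (u x * a) * (b * w x) = u x * (a * b) * w x := by simp only [mul_assoc]
          rw [this, e3]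
          exact he x h4
        have h9 : (u x' * a') * (b' * w x') = x' := by
          have : (u x' * a') * (b' * w x') = u x' * (a' * b') * w x' := by
            simp only [mul_assoc]
          rw [this, e3']
          exact he x' h4'
        rw [← h8, e1, e2, h9]
      subst hx
      have ha : a = a' := mul_left_cancel e1
      have hb : b = b' := mul_right_cancel e2
      subst ha hb
      rfl
  have h4 : (∑ x ∈ U * D * P⁻¹, (rep P (d x) : ℝ)) ≤ (#(U * P⁻¹) : ℝ) * (#(P * P⁻¹) : ℝ) := by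
    exact_mod_cast h2
  exact h1.trans h4

theorem card_le_conj (P V : Finset G) (hP : P.Nonempty) : #V ≤ #(P * V * P⁻¹) :=
  (card_le_card_mul_left hP).trans (card_le_card_mul_right hP.inv)

end

theorem st_APG : ST_APG := by
  classical
  refine ⟨4096, by norm_num, ?_⟩
  intro G _ P K hK hP hPP
  have hp : (0 : ℝ) < (#P : ℝ) := by exact_mod_cast hP.card_pos
  have hK0 : 0 < K := by linarith
  obtain ⟨p, hpe⟩ : ∃ p : ℝ, p = (#P : ℝ) := ⟨_, rfl⟩
  obtain ⟨t, hte⟩ : ∃ t : ℝ, t = p / (2 * K) := ⟨_, rfl⟩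
  rw [← hpe] at hp hPP
  have ht : 0 < t := by rw [hte]; positivity
  have htK : t * (2 * K) = p := by rw [hte]; field_simp
  obtain ⟨D, hD⟩ : ∃ D : Finset G, D = {x ∈ P⁻¹ * P | t ≤ (rep P x : ℝ)} := ⟨_, rfl⟩
  have hDt : ∀ d ∈ D, t ≤ (rep P d : ℝ) := by
    intro d hd
    rw [hD, mem_filter] at hd
    exact hd.2
  have hmem : ∀ x, x ∈ D ↔ t ≤ (rep P x : ℝ) := by
    intro x
    refine ⟨hDt x, fun h => ?_⟩
    rw [hD, mem_filter]
    refine ⟨?_, h⟩
    have h1 : 0 < rep P x := by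
      have : (0 : ℝ) < (rep P x : ℝ) := ht.trans_le h
      exact_mod_cast this
    obtain ⟨z, hz⟩ := card_pos.1 h1
    rw [mem_filter, mem_product] at hz
    rw [← hz.2]
    exact mul_mem_mul hz.1.1 hz.1.2
  have hone : (1 : G) ∈ D := by
    rw [hmem]
    have h1 : #P ≤ rep P 1 := by
      refine card_le_card_of_injOn (fun a => (a⁻¹, a)) ?_ ?_
      · intro a ha
        rw [mem_coe] at ha
        rw [mem_coe, mem_filter, mem_product]
        exact ⟨⟨inv_mem_inv ha, ha⟩, inv_mul_cancel a⟩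
      · intro a _ b _ h
        exact congrArg Prod.snd h
    have h2 : p ≤ (rep P 1 : ℝ) := by rw [hpe]; exact_mod_cast h1
    nlinarith
  have hinv : D⁻¹ = D := by
    ext x
    rw [mem_inv', hmem, hmem, rep_inv]
  have hDn : D.Nonempty := ⟨1, hone⟩
  -- lower bound for the number of popular differences
  have hE : p ^ 3 ≤ K * (Eₘ[P⁻¹, P] : ℝ) := by
    have h1 := le_card_mul_mul_mulEnergy P P⁻¹
    rw [card_inv] at h1
    have h2 : #P ^ 2 * #P ^ 2 ≤ #(P * P⁻¹) * Eₘ[P⁻¹, P] :=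
      h1.trans (Nat.mul_le_mul_left _ (energy_le P))
    have h3 : p ^ 2 * p ^ 2 ≤ (#(P * P⁻¹) : ℝ) * (Eₘ[P⁻¹, P] : ℝ) := by
      rw [hpe]; exact_mod_cast h2
    have h4 : (#(P * P⁻¹) : ℝ) * (Eₘ[P⁻¹, P] : ℝ) ≤ K * p * (Eₘ[P⁻¹, P] : ℝ) :=
      mul_le_mul_of_nonneg_right hPP (Nat.cast_nonneg _)
    have h5 : p * p ^ 3 ≤ p * (K * (Eₘ[P⁻¹, P] : ℝ)) := by nlinarith
    exact le_of_mul_le_mul_left h5 hp
  have hE2 : (Eₘ[P⁻¹, P] : ℝ) ≤ (#D : ℝ) * p ^ 2 + t * p ^ 2 := by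
    have h1 : (Eₘ[P⁻¹, P] : ℝ) = ∑ x ∈ P⁻¹ * P, (rep P x : ℝ) ^ 2 := by
      rw [mulEnergy_eq_sum_sq']
      push_cast
      rfl
    have h2 : ∑ x ∈ P⁻¹ * P, (rep P x : ℝ) = p ^ 2 := by
      rw [hpe]
      exact_mod_cast rep_sum P
    have h3 : ∀ x ∈ P⁻¹ * P, (rep P x : ℝ) ^ 2 ≤
        (if x ∈ D then p ^ 2 else 0) + t * (rep P x : ℝ) := by
      intro x _
      have h4 : (rep P x : ℝ) ≤ p := by rw [hpe]; exact_mod_cast rep_le P x
      have h5 : (0 : ℝ) ≤ (rep P x : ℝ) := Nat.cast_nonneg _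
      by_cases hx : x ∈ D
      · rw [if_pos hx]; nlinarith [mul_nonneg ht.le h5]
      · rw [if_neg hx]
        rw [hmem, not_le] at hx
        nlinarith
    rw [h1]
    refine (sum_le_sum h3).trans ?_
    rw [sum_add_distrib, ← mul_sum, h2, ← sum_filter, sum_const, nsmul_eq_mul]
    have h6 : {x ∈ P⁻¹ * P | x ∈ D} ⊆ D := by
      intro x hx
      exact (mem_filter.1 hx).2
    have h7 : (#{x ∈ P⁻¹ * P | x ∈ D} : ℝ) ≤ (#D : ℝ) := by exact_mod_cast card_le_card h6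
    nlinarith [mul_le_mul_of_nonneg_right h7 (sq_nonneg p)]
  have hDl : p ≤ 2 * K * (#D : ℝ) := by
    have h1 : p ^ 3 ≤ K * ((#D : ℝ) * p ^ 2 + t * p ^ 2) :=
      hE.trans (mul_le_mul_of_nonneg_left hE2 hK0.le)
    have h2 : K * (t * p ^ 2) = p ^ 3 / 2 := by
      have : K * t = p / 2 := by linarith
      calc K * (t * p ^ 2) = (K * t) * p ^ 2 := by ring
        _ = p ^ 3 / 2 := by rw [this]; ring
    have h3 : p ^ 2 * p ≤ p ^ 2 * (2 * K * (#D : ℝ)) := by nlinarith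
    exact le_of_mul_le_mul_left h3 (by positivity)
  -- products
  have step : ∀ U : Finset G, (#(U * D * P⁻¹) : ℝ) ≤ 2 * K ^ 2 * (#(U * P⁻¹) : ℝ) := by
    intro U
    have h1 := key_step P U D t hDt
    have h2 : (#(U * P⁻¹) : ℝ) * (#(P * P⁻¹) : ℝ) ≤ (#(U * P⁻¹) : ℝ) * (K * p) :=
      mul_le_mul_of_nonneg_left hPP (Nat.cast_nonneg _)
    have h3 : (#(U * D * P⁻¹) : ℝ) * t ≤ (2 * K ^ 2 * (#(U * P⁻¹) : ℝ)) * t := by
      have : (2 * K ^ 2 * (#(U * P⁻¹) : ℝ)) * t = (#(U * P⁻¹) : ℝ) * (K * (t * (2 * K))) := by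
        ring
      rw [this, htK]
      exact h1.trans h2
    exact le_of_mul_le_mul_right h3 ht
  have n1 : (#(P * D * P⁻¹) : ℝ) ≤ 2 * K ^ 3 * p := by
    have := step P
    nlinarith [mul_le_mul_of_nonneg_left hPP (show 0 ≤ 2 * K ^ 2 by positivity)]
  have n2 : (#(P * (D * D) * P⁻¹) : ℝ) ≤ 4 * K ^ 5 * p := by
    have := step (P * D)
    rw [← mul_assoc]
    nlinarith [mul_le_mul_of_nonneg_left n1 (show 0 ≤ 2 * K ^ 2 by positivity)]
  have n3 : (#(P * (D * D * D) * P⁻¹) : ℝ) ≤ 8 * K ^ 7 * p := by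
    have := step (P * (D * D))
    rw [mul_assoc P (D * D) D] at this
    nlinarith [mul_le_mul_of_nonneg_left n2 (show 0 ≤ 2 * K ^ 2 by positivity)]
  have hD3 : (#(D ^ 3) : ℝ) ≤ 16 * K ^ 8 * (#D : ℝ) := by
    have h1 : (#(D ^ 3) : ℝ) ≤ (#(P * (D * D * D) * P⁻¹) : ℝ) := by
      have h2 : D ^ 3 = D * D * D := by rw [pow_succ, sq]
      rw [h2]
      exact_mod_cast card_le_conj P (D * D * D) hP
    have h3 : 8 * K ^ 7 * p ≤ 8 * K ^ 7 * (2 * K * (#D : ℝ)) :=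
      mul_le_mul_of_nonneg_left hDl (by positivity)
    have h4 : 8 * K ^ 7 * (2 * K * (#D : ℝ)) = 16 * K ^ 8 * (#D : ℝ) := by ring
    linarith
  have hAp := IsApproximateSubgroup.of_small_tripling hone hinv hD3
  have hpow : ∀ n ≤ 4096, K ^ n ≤ K ^ 4096 := fun n hn => pow_le_pow_right₀ hK hn
  refine ⟨D ^ 2, ?_, ?_, ?_⟩
  · rw [coe_pow]
    refine IsApproximateSubgroup.mono ?_ hAp
    have h1 : (16 * K ^ 8) ^ 3 = 4096 * K ^ 24 := by ring
    rw [h1]
    push_cast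
    exact mul_le_mul_of_nonneg_left (hpow 24 (by norm_num)) (by norm_num)
  · have h1 : (#(D ^ 2) : ℝ) ≤ (#(P * (D * D) * P⁻¹) : ℝ) := by
      rw [sq]
      exact_mod_cast card_le_conj P (D * D) hP
    have h2 : 4 * K ^ 5 ≤ 4096 * K ^ 4096 :=
      (mul_le_mul_of_nonneg_right (by norm_num : (4 : ℝ) ≤ 4096) (by positivity)).trans
        (mul_le_mul_of_nonneg_left (hpow 5 (by norm_num)) (by norm_num))
    rw [← hpe]
    push_cast
    exact (h1.trans n2).trans (mul_le_mul_of_nonneg_right h2 hp.le)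
  · have h1 : (#(P * D) : ℝ) ≤ (4 * K ^ 4) * (#D : ℝ) := by
      have h2 : (#(P * D) : ℝ) ≤ (#(P * D * P⁻¹) : ℝ) := by
        exact_mod_cast card_le_card_mul_right hP.inv
      have h3 : 2 * K ^ 3 * p ≤ 2 * K ^ 3 * (2 * K * (#D : ℝ)) :=
        mul_le_mul_of_nonneg_left hDl (by positivity)
      have h4 : 2 * K ^ 3 * (2 * K * (#D : ℝ)) = (4 * K ^ 4) * (#D : ℝ) := by ring
      linarith
    obtain ⟨F, -, hF, hPF⟩ := ruzsa_covering_mul hDn h1
    refine ⟨F, ?_, ?_⟩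
    · have h2 : 4 * K ^ 4 ≤ 4096 * K ^ 4096 :=
        (mul_le_mul_of_nonneg_right (by norm_num : (4 : ℝ) ≤ 4096) (by positivity)).trans
          (mul_le_mul_of_nonneg_left (hpow 4 (by norm_num)) (by norm_num))
      push_cast
      exact hF.trans h2
    · rw [div_eq_mul_inv, hinv, ← sq] at hPF
      exact hPF

end Pool.Agent.Helper94.XP
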