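import Pool.Agent.Helper81.XP.StB

/-! A surface with a good point contains a point of the class. -/

open Finset
open scoped Pointwise LinearAlgebra.Projectivization

namespace Pool.Agent.Helper94.XP

open Pool.Agent.Helper81.XP

theorem spe_inv {k : Type} [Field k] (M : Matrix (Fin 3) (Fin 3) k) (hM : M.det ≠ 0) (j : Fin 3) :
    M⁻¹ 0 0 * M 0 j + M⁻¹ 0 1 * M 1 j + M⁻¹ 0 2 * M 2 j = if j = 0 then 1 else 0 := by
  have h : M⁻¹ * M = 1 := Matrix.nonsing_inv_mul M (isUnit_iff_ne_zero.2 hM)
  have h2 : (M⁻¹ * M) 0 j = (1 : Matrix (Fin 3) (Fin 3) k) 0 j := by rw [h]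
  rw [Matrix.mul_apply, Fin.sum_univ_three, Matrix.one_apply] at h2
  rw [h2]
  by_cases hj : j = 0
  · rw [if_pos hj.symm, if_pos hj]
  · rw [if_neg (fun h => hj h.symm), if_neg hj]

theorem spe_mv {k : Type} [Field k] (M : Matrix (Fin 3) (Fin 3) k) (hM : M.det ≠ 0)
    (e : Fin 3 → k) : ∃ a b c : k, mv (K := k) M a b c = e := by
  have h : M * M⁻¹ = 1 := Matrix.mul_nonsing_inv M (isUnit_iff_ne_zero.2 hM)
  refine ⟨M⁻¹.mulVec e 0, M⁻¹.mulVec e 1, M⁻¹.mulVec e 2, ?_⟩
  funext i
  have h2 : M.mulVec (M⁻¹.mulVec e) i = e i := by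
    rw [Matrix.mulVec_mulVec, h, Matrix.one_mulVec]
  rw [← h2]
  conv_rhs => rw [Matrix.mulVec, dotProduct, Fin.sum_univ_three]
  rfl

theorem spe_deg {k : Type} [Field k] {K : Type} [Field K] (f : T2 k →+* K) (F : T3 k) (d : ℕ)
    (hF : Mo3 d F) (u : K) (hu : u ≠ 0) (hf : ∀ c : k, c ≠ 0 →
      F.coeff d = Polynomial.C (Polynomial.C c) → f (Polynomial.C (Polynomial.C c)) = u) :
    (F.map f).leadingCoeff = u := by
  obtain ⟨h1, c, hc, h2⟩ := hF
  have h3 : F.natDegree ≤ d := by
    rw [Polynomial.natDegree_le_iff_coeff_eq_zero]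
    intro N hN
    by_contra h
    have h4 : ∃ j, (F.coeff N).coeff j ≠ 0 := by
      by_contra h5
      push Not at h5
      exact h (Polynomial.ext h5)
    obtain ⟨j, hj⟩ := h4
    have h5 : ∃ l, ((F.coeff N).coeff j).coeff l ≠ 0 := by
      by_contra h6
      push Not at h6
      exact hj (Polynomial.ext h6)
    obtain ⟨l, hl⟩ := h5
    have := h1 N j l hl
    omega
  have h4 : (F.map f).coeff d = u := by
    rw [Polynomial.coeff_map, h2]
    exact hf c hc h2
  have h5 : (F.map f).natDegree = d := by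
    refine le_antisymm (Polynomial.natDegree_map_le.trans h3) ?_
    refine Polynomial.le_natDegree_of_ne_zero ?_
    rw [h4]
    exact hu
  rw [Polynomial.leadingCoeff, h5, h4]

open Polynomial in
theorem spe_C (k : Type) [Field k] (c : k) :
    algebraMap (Polynomial k) (Om k) (C c) = algebraMap k (Om k) c := by
  rw [IsScalarTower.algebraMap_apply k (Polynomial k) (Om k)]
  rfl

open Polynomial in
theorem spe_comp (k : Type) [Field k] (a b : k) : (algebraMap (Polynomial k) (Om k)).comp
    (ev2 (k := k) (K := Polynomial k) (X + C a) (C b)) =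
    ev2 (k := k) (tt k + algebraMap k _ a) (algebraMap k _ b) := by
  refine Polynomial.ringHom_ext' ?_ ?_
  · refine Polynomial.ringHom_ext' ?_ ?_
    · ext c
      simp [ev2, spe_C]
    · simp [ev2, spe_C, tt]
  · simp [ev2, spe_C]

theorem spe_ev2C {k : Type} [Field k] {K : Type} [CommRing K] [Algebra k K] (a b : K) (c : k) :
    ev2 (k := k) a b (Polynomial.C (Polynomial.C c)) = algebraMap k K c := by
  simp [ev2]

theorem st_SPE (hLIA : ST_LIA) (hLIB : ST_LIB) (hRTL : ST_RTL) (hRED : ST_RED)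
    (hVAP : ST_VAP) : ST_SPE := by
  intro k _ _ g e hg he hGood
  obtain ⟨M, hM, hMo⟩ := (hLIB k).2 g hg
  obtain ⟨a, b, c, habc⟩ := spe_mv M hM e
  obtain ⟨⟨O, hO⟩, hV⟩ := hVAP k 0
  obtain ⟨hV1, hV2, -⟩ := hV O hO
  obtain ⟨hO1, hO2⟩ := hO
  rw [map_zero, sub_zero] at hO2
  have hle : ∀ u : k, O.valuation (algebraMap k (Om k) u) ≤ 1 := fun u =>
    (O.valuation_le_one_iff _).2 (hO1 u)
  obtain ⟨c0, hc0, hco⟩ := hMo.2
  obtain ⟨f, hf⟩ : ∃ f : T2 k →+* Om k,
    f = ev2 (tt k + algebraMap k _ a) (algebraMap k _ b) := ⟨_, rfl⟩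
  obtain ⟨G, hG⟩ : ∃ G : Polynomial (Om k), G = (phi M g).map f := ⟨_, rfl⟩
  have hc0' : algebraMap k (Om k) c0 ≠ 0 := by
    rw [Ne, map_eq_zero]; exact hc0
  have hlead : G.leadingCoeff = algebraMap k (Om k) c0 := by
    rw [hG]
    refine spe_deg f (phi M g) _ hMo _ hc0' ?_
    intro c1 _ h1
    have h2 : c1 = c0 := by
      rw [hco] at h1
      exact (Polynomial.C_injective (Polynomial.C_injective h1)).symm
    rw [h2, hf, spe_ev2C]
  have hev : ∀ w : Om k, G.eval w =
      MvPolynomial.aeval (mv M (tt k + algebraMap k _ a) (algebraMap k _ b) w) g := by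
    intro w
    rw [← (hLIA k).1, hG, Polynomial.eval_map, hf]
    rfl
  have he' : ∀ i, algebraMap k (Om k) (e i) = algebraMap k (Om k) (M i 0) * algebraMap k _ a +
      algebraMap k (Om k) (M i 1) * algebraMap k _ b +
      algebraMap k (Om k) (M i 2) * algebraMap k _ c := by
    intro i
    rw [← habc]
    simp only [mv, Algebra.algebraMap_self, RingHom.id_apply, map_add, map_mul]
  have hdiff : ∀ w : Om k, O.valuation (algebraMap k _ c - w) < 1 → ∀ i,
      O.valuation (mv M (tt k + algebraMap k _ a) (algebraMap k _ b) w i -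
        algebraMap k (Om k) (e i)) < 1 := by
    intro w hw i
    have h1 : mv M (tt k + algebraMap k _ a) (algebraMap k _ b) w i -
        algebraMap k (Om k) (e i) = algebraMap k (Om k) (M i 0) * tt k -
        algebraMap k (Om k) (M i 2) * (algebraMap k _ c - w) := by
      rw [he' i]
      simp only [mv]
      ring
    rw [h1]
    have h2 : O.valuation (algebraMap k (Om k) (M i 0) * tt k) < 1 := by
      rw [map_mul]
      exact (mul_le_of_le_one_left' (hle _)).trans_lt hO2
    have h3 : O.valuation (algebraMap k (Om k) (M i 2) * (algebraMap k _ c - w)) < 1 := by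
      rw [map_mul]
      exact (mul_le_of_le_one_left' (hle _)).trans_lt hw
    exact (O.valuation.map_sub _ _).trans_lt (max_lt h2 h3)
  have hGc : O.valuation (G.eval (algebraMap k _ c)) < 1 := by
    have h1 := (hRED k (Om k) O e (mv M (tt k + algebraMap k _ a) (algebraMap k _ b)
      (algebraMap k _ c)) hO1 (hdiff _ (by rw [sub_self, map_zero]; exact zero_lt_one))).1 g
    rw [he, map_zero, sub_zero] at h1
    rw [hev]
    exact h1
  obtain ⟨ζ, hζ, hζ2⟩ := hRTL (Om k) O G (algebraMap k _ c)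
    (by rw [hlead]; exact hV1 c0 hc0) hGc
  have hζ' : G.eval ζ = 0 := hζ
  -- integrality of the root
  have hint : IsIntegral (Polynomial k) ζ := by
    obtain ⟨f0, hf0⟩ : ∃ f0 : T2 k →+* Polynomial k,
      f0 = ev2 (Polynomial.X + Polynomial.C a) (Polynomial.C b) := ⟨_, rfl⟩
    obtain ⟨G0, hG0⟩ : ∃ G0 : Polynomial (Polynomial k), G0 = (phi M g).map f0 := ⟨_, rfl⟩
    have h1 : G0.map (algebraMap (Polynomial k) (Om k)) = G := by
      rw [hG0, hG, Polynomial.map_map, hf0, hf, spe_comp]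
    have h2 : G0.leadingCoeff = Polynomial.C c0 := by
      have hinj : Function.Injective (algebraMap (Polynomial k) (Om k)) := by
        rw [IsScalarTower.algebraMap_eq (Polynomial k) (RatFunc k) (Om k)]
        exact (algebraMap (RatFunc k) (Om k)).injective.comp (RatFunc.algebraMap_injective k)
      have h3 := Polynomial.leadingCoeff_map_of_injective hinj G0
      rw [h1, hlead, ← spe_C] at h3
      exact (hinj h3).symm
    refine ⟨Polynomial.C (Polynomial.C c0⁻¹) * G0, ?_, ?_⟩
    · refine Polynomial.monic_C_mul_of_mul_leadingCoeff_eq_one ?_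
      rw [h2, ← Polynomial.C_mul, inv_mul_cancel₀ hc0, Polynomial.C_1]
    · rw [Polynomial.eval₂_mul, ← Polynomial.eval_map (p := G0), h1, hζ', mul_zero]
  have hti : IsIntegral (Polynomial k) (tt k) := isIntegral_algebraMap
  have hci : ∀ u : k, IsIntegral (Polynomial k) (algebraMap k (Om k) u) := by
    intro u
    rw [← spe_C]
    exact isIntegral_algebraMap
  refine ⟨mv M (tt k + algebraMap k _ a) (algebraMap k _ b) ζ, ⟨?_, ?_, ?_⟩, ?_⟩
  · exact (hRED k (Om k) O e _ hO1 (hdiff ζ hζ2)).2 hGood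
  · intro i
    simp only [mv]
    exact (((hci _).mul (hti.add (hci _))).add ((hci _).mul (hci _))).add ((hci _).mul hint)
  · refine ⟨fun i => M⁻¹ 0 i, -a, ?_⟩
    have h0 := congrArg (algebraMap k (Om k)) (spe_inv M hM 0)
    have h1 := congrArg (algebraMap k (Om k)) (spe_inv M hM 1)
    have h2 := congrArg (algebraMap k (Om k)) (spe_inv M hM 2)
    rw [if_pos rfl] at h0
    rw [if_neg (by decide)] at h1 h2
    simp only [map_add, map_mul, map_zero, map_one] at h0 h1 h2
    rw [Fin.sum_univ_three]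
    simp only [mv, map_neg]
    linear_combination (-(tt k + algebraMap k (Om k) a)) * h0 - algebraMap k (Om k) b * h1 -
      ζ * h2
  · rw [← hev, hζ']

end Pool.Agent.Helper94.XP
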